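import Mathlib
import Pool.Agent.Q124.MS.Plain
import Pool.Agent.Q124.MS.Blk

set_option autoImplicit false

/-!
# The graph of a cographic tangential 2-block (MP_aa6b05_co)

By Seymour's theorem every tangential 2-block over GF(2) other than the Fano plane and `M(K₅)` is
cographic.  Let `M*(G)` be a tangential 2-block which is not `M*(P₁₀)`.  Then `G` is simple, has no
loops, no circuits with three or four edges, no edge cuts of size one or two, only trivial edge cuts
of size three, is 3-connected and internally 4-connected, has at least eighteen vertices of odd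
degree, treewidth at least five, pathwidth at least six, and no list of more than fourteen vertices
such that at each time at most five listed vertices have neighbours that are not yet listed.
-/

namespace Pool.Agent.Results.MP_aa6b05_co.BlockGraph

/-- The incidence vector of the vertex `v` over GF(2): the coordinate of an edge is the number of
its ends which are `v`, modulo 2 (so loops give 0). -/
def star {V E : Type} [DecidableEq V] (src dst : E → V) (v : V) : E → ZMod 2 :=
  fun e => (if src e = v then 1 else 0) + (if dst e = v then 1 else 0)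

/-- The vectors `vec e` represent the cographic matroid of the graph: the linear relations between
them are exactly the elements of the cut space, which is spanned by the incidence vectors. -/
def RepresentsCographic {V E : Type} [DecidableEq V] [Fintype E] (src dst : E → V) {n : ℕ}
    (vec : E → Fin n → ZMod 2) : Prop :=
  ∀ x : E → ZMod 2, ∑ e, x e • vec e = 0 ↔
    x ∈ Submodule.span (ZMod 2) (Set.range (star src dst))

/-- The simple matroid represented by the set `S` of vectors over GF(2) is a 2-block: `S` has no
zero vector and no linear map to the plane over GF(2) is nonzero on all of `S`. -/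
def IsTwoBlock {n : ℕ} (S : Set (Fin n → ZMod 2)) : Prop :=
  (0 : Fin n → ZMod 2) ∉ S ∧
    ¬ ∃ L : (Fin n → ZMod 2) →ₗ[ZMod 2] (Fin 2 → ZMod 2), ∀ s ∈ S, L s ≠ 0

/-- `S` represents a tangential 2-block: it is a 2-block, and no proper minor without loops
(contract `C`, keep `T`) is a 2-block. This is the hypothesis of the frozen statement S10691. -/
def IsTangential {n : ℕ} (S : Set (Fin n → ZMod 2)) : Prop :=
  IsTwoBlock S ∧
    ∀ C T : Set (Fin n → ZMod 2), C ⊆ S → T ⊆ S → T ≠ S →
      (∀ t ∈ T, t ∉ Submodule.span (ZMod 2) C) →
      ∃ L : (Fin n → ZMod 2) →ₗ[ZMod 2] (Fin 2 → ZMod 2),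
        (∀ c ∈ C, L c = 0) ∧ ∀ t ∈ T, L t ≠ 0

/-- The cut space of the Petersen graph: vertices `0, ..., 9`, edges `0, ..., 14`. -/
def petersenCuts : Submodule (ZMod 2) (Fin 15 → ZMod 2) :=
  Submodule.span (ZMod 2) (Set.range (fun v : Fin 10 => fun k : Fin 15 =>
    if (![0,1,2,3,4,5,6,7,8,9,0,1,2,3,4] : Fin 15 → Fin 10) k = v ∨
       (![1,2,3,4,0,7,8,9,5,6,5,6,7,8,9] : Fin 15 → Fin 10) k = v
    then (1 : ZMod 2) else 0))

/-- **Theorem.** Let `S` be a tangential 2-block over GF(2) which is the cographic matroid of a graph
(the edges are in bijection with the elements of `S`).  Then `S` is the cographic matroid of the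
Petersen graph, in the form of the frozen statement S10691, or the graph has no loops and has the
properties listed in the structure `Critical`. -/
theorem result :
    ∀ (n : ℕ) (S : Set (Fin n → ZMod 2)) (V E : Type) [Fintype V] [DecidableEq V] [Fintype E]
      [DecidableEq E] (src dst : E → V) (vec : E → Fin n → ZMod 2),
      RepresentsCographic src dst vec → Function.Injective vec → Set.range vec = S →
      IsTangential S →
      (∃ ψ : (Fin 15 → ZMod 2) →ₗ[ZMod 2] (Fin n → ZMod 2),
        LinearMap.ker ψ = petersenCuts ∧
        ⇑ψ '' Set.range (fun k : Fin 15 => (Pi.single k (1 : ZMod 2) : Fin 15 → ZMod 2)) = S) ∨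
      ((∀ e, src e ≠ dst e) ∧ Q124.MS.Plain.Critical src dst) := by
  classical
  intro n S V E _ _ _ _ src dst vec hv hinj hr hSt
  have hv' : TH676.Blk.RepCo src dst vec := hv
  have hPC : TH676.Blk.PC = petersenCuts := rfl
  have h0 : ∀ e, vec e ≠ 0 := by
    intro e he
    apply hSt.1.1
    rw [← hr, ← he]
    exact ⟨e, rfl⟩
  have hTan : Q124.MS.Tan vec := by
    refine ⟨hinj, h0, ?_, ?_⟩
    · rintro ⟨L, hL⟩
      apply hSt.1.2
      refine ⟨L, fun s hs => ?_⟩
      rw [← hr] at hs
      obtain ⟨e, rfl⟩ := hs
      exact hL e
    · intro D T hT hsp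
      obtain ⟨e0, he0⟩ : ∃ e0, e0 ∉ T := by
        by_contra hcon
        push Not at hcon
        exact hT (Finset.eq_univ_of_forall hcon)
      obtain ⟨L, h1, h2⟩ := hSt.2 (vec '' (D : Set E)) (vec '' (T : Set E))
        (by rintro _ ⟨e, _, rfl⟩; rw [← hr]; exact ⟨e, rfl⟩)
        (by rintro _ ⟨e, _, rfl⟩; rw [← hr]; exact ⟨e, rfl⟩)
        (by
          intro heq
          have h3 : vec e0 ∈ vec '' (T : Set E) := by
            rw [heq, ← hr]; exact ⟨e0, rfl⟩
          obtain ⟨e, he, hee⟩ := h3
          exact he0 (hinj hee ▸ he))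
        (by rintro _ ⟨e, he, rfl⟩; exact hsp e he)
      exact ⟨L, fun e he => h1 _ ⟨e, he, rfl⟩, fun e he => h2 _ ⟨e, he, rfl⟩⟩
  by_cases hPM : TH499.TF.PM src dst
  · left
    have main : ∃ (C : Set (Fin n → ZMod 2)) (t : Fin 15 → Fin n → ZMod 2),
        C ⊆ S ∧ Set.range t ⊆ S ∧ Function.Injective t ∧
        ∀ x : Fin 15 → ZMod 2, ∑ k, x k • t k ∈ Submodule.span (ZMod 2) C ↔
          x ∈ TH676.Blk.PC := by
      obtain ⟨D, ed, hx⟩ := hv'.minor hPM
      refine ⟨vec '' (D : Set E), fun k => vec (ed k), ?_, ?_, ?_, hx⟩
      · rintro _ ⟨e, _, rfl⟩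
        rw [← hr]
        exact ⟨e, rfl⟩
      · rintro _ ⟨k, rfl⟩
        rw [← hr]
        exact ⟨ed k, rfl⟩
      · intro k l hkl
        by_contra hne
        apply TH676.Blk.pair_not_mem k l hne
        rw [← hx]
        have : ∑ m, (Pi.single k 1 + Pi.single l 1 : Fin 15 → ZMod 2) m • vec (ed m) = 0 := by
          simp only [Pi.add_apply, add_smul]
          rw [Finset.sum_add_distrib]
          simp only [Pi.single_apply, ite_smul, one_smul, zero_smul, Finset.sum_ite_eq',
            Finset.mem_univ, if_true]
          have h3 : vec (ed k) = vec (ed l) := hkl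
          rw [h3]
          funext i
          exact CharTwo.add_self_eq_zero _
        rw [this]
        exact Submodule.zero_mem _
    obtain ⟨C, t, hC, ht, hinj, hx⟩ := main
    obtain ⟨h2, htan⟩ := hSt
    -- a single element is not in the span of `C`
    have hsum1 : ∀ k, ∑ m, (Pi.single k 1 : Fin 15 → ZMod 2) m • t m = t k := by
      intro k
      simp only [Pi.single_apply, ite_smul, one_smul, zero_smul, Finset.sum_ite_eq',
        Finset.mem_univ, if_true]
    have hsp : ∀ k, t k ∉ Submodule.span (ZMod 2) C := by
      intro k hk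
      apply TH676.Blk.single_not_mem k
      rw [← hx, hsum1]
      exact hk
    have hTS : Set.range t = S := by
      by_contra hne
      obtain ⟨L, hL1, hL2⟩ := htan C (Set.range t) hC ht hne (by
        rintro _ ⟨k, rfl⟩
        exact hsp k)
      obtain ⟨k, hk⟩ := TH676.Blk.pet_flow (fun k => ((L (t k)) 0, (L (t k)) 1)) (by
        intro x hxP
        have h3 := (hx x).mpr hxP
        have h4 : L (∑ k, x k • t k) = 0 := by
          have hle : Submodule.span (ZMod 2) C ≤ LinearMap.ker L :=
            Submodule.span_le.mpr (fun c hc => hL1 c hc)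
          exact hle h3
        rw [map_sum] at h4
        simp only [map_smul] at h4
        have h5 := congrFun h4 0
        have h6 := congrFun h4 1
        rw [Finset.sum_apply] at h5 h6
        refine Prod.ext ?_ ?_
        · rw [Prod.fst_sum]
          exact h5
        · rw [Prod.snd_sum]
          exact h6)
      apply hL2 (t k) ⟨k, rfl⟩
      funext i
      fin_cases i
      · exact congrArg Prod.fst hk
      · exact congrArg Prod.snd hk
    have hC0 : C = ∅ := by
      rw [Set.eq_empty_iff_forall_notMem]
      intro c hc
      have h3 := hC hc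
      rw [← hTS] at h3
      obtain ⟨k, rfl⟩ := h3
      exact hsp k (Submodule.subset_span hc)
    refine ⟨Fintype.linearCombination (ZMod 2) t, ?_, ?_⟩
    · ext x
      rw [LinearMap.mem_ker, Fintype.linearCombination_apply, ← hPC, ← hx, hC0,
        Submodule.span_empty, Submodule.mem_bot]
    · ext s
      rw [← hTS]
      constructor
      · rintro ⟨_, ⟨k, rfl⟩, rfl⟩
        refine ⟨k, ?_⟩
        rw [Fintype.linearCombination_apply]
        exact (hsum1 k).symm
      · rintro ⟨k, rfl⟩
        refine ⟨_, ⟨k, rfl⟩, ?_⟩
        rw [Fintype.linearCombination_apply]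
        exact hsum1 k
  · right
    exact ⟨hTan.loopless hv', Q124.MS.Plain.critical_of (hTan.minCx hv') hPM⟩

end Pool.Agent.Results.MP_aa6b05_co.BlockGraph
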