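import Mathlib
import Pool.Agent.Q253.VC.Blk

set_option autoImplicit false

/-!
# Tangential 2-blocks over GF(2) and vertex covers (MP_aa6b05_co)

Tutte's tangential 2-block conjecture holds for the cographic matroids of graphs with a vertex cover
of at most nine vertices: every 2-block over GF(2) which is the cographic matroid of a graph with
nine vertices meeting all edges which are not loops has a minor `M*(P₁₀)`, and if it is tangential
it is `M*(P₁₀)`.

The graph theoretic input is the theorem (handed in for MP_e6539c_co, VertexCoverNine) that every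
bridgeless multigraph with such a vertex cover and without a Petersen minor has a nowhere-zero
4-flow; the translation to blocks is the one of helper676 (TreewidthFour).
-/

namespace Pool.Agent.Results.MP_aa6b05_co.VertexCoverNine

/-- The incidence vector of the vertex `v` over GF(2): the coordinate of an edge is the number of
its ends which are `v`, modulo 2 (so loops give 0). -/
def star {V E : Type} [DecidableEq V] (src dst : E → V) (v : V) : E → ZMod 2 :=
  fun e => (if src e = v then 1 else 0) + (if dst e = v then 1 else 0)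

/-- The vectors `vec e` represent the cographic matroid of the graph: the linear relations between
them are exactly the elements of the cut space, which is spanned by the incidence vectors. -/
def RepresentsCographic {V E : Type} [DecidableEq V] [Fintype E] (src dst : E → V) {n : ℕ}
    (vec : E → Fin n → ZMod 2) : Prop :=
  ∀ x : E → ZMod 2, ∑ e, x e • vec e = 0 ↔
    x ∈ Submodule.span (ZMod 2) (Set.range (star src dst))

/-- The simple matroid represented by the set `S` of vectors over GF(2) is a 2-block: `S` has no
zero vector and no linear map to the plane over GF(2) is nonzero on all of `S`. -/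
def IsTwoBlock {n : ℕ} (S : Set (Fin n → ZMod 2)) : Prop :=
  (0 : Fin n → ZMod 2) ∉ S ∧
    ¬ ∃ L : (Fin n → ZMod 2) →ₗ[ZMod 2] (Fin 2 → ZMod 2), ∀ s ∈ S, L s ≠ 0

/-- `S` represents a tangential 2-block: it is a 2-block, and no proper minor without loops
(contract `C`, keep `T`) is a 2-block. This is the hypothesis of the frozen statement S10691. -/
def IsTangential {n : ℕ} (S : Set (Fin n → ZMod 2)) : Prop :=
  IsTwoBlock S ∧
    ∀ C T : Set (Fin n → ZMod 2), C ⊆ S → T ⊆ S → T ≠ S →
      (∀ t ∈ T, t ∉ Submodule.span (ZMod 2) C) →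
      ∃ L : (Fin n → ZMod 2) →ₗ[ZMod 2] (Fin 2 → ZMod 2),
        (∀ c ∈ C, L c = 0) ∧ ∀ t ∈ T, L t ≠ 0

/-- The cut space of the Petersen graph: vertices `0, ..., 9`, edges `0, ..., 14`. -/
def petersenCuts : Submodule (ZMod 2) (Fin 15 → ZMod 2) :=
  Submodule.span (ZMod 2) (Set.range (fun v : Fin 10 => fun k : Fin 15 =>
    if (![0,1,2,3,4,5,6,7,8,9,0,1,2,3,4] : Fin 15 → Fin 10) k = v ∨
       (![1,2,3,4,0,7,8,9,5,6,5,6,7,8,9] : Fin 15 → Fin 10) k = v
    then (1 : ZMod 2) else 0))

/-- Let `S` be a set of vectors over GF(2) which represents the cographic matroid of a graph with a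
set `X` of at most nine vertices which meets all edges that are not loops (parallel elements are
represented by the same vector).  If `S` is a 2-block
then the minor of `S` for some `C ⊆ S` and 15 elements of `S` is the cographic matroid of the
Petersen graph; if `S` is a tangential 2-block then `S` is the cographic matroid of the Petersen
graph, in the form of the frozen statement S10691. -/
theorem result :
    ∀ (n : ℕ) (S : Set (Fin n → ZMod 2)) (V E : Type) [Fintype V] [DecidableEq V] [Fintype E]
      [DecidableEq E] (src dst : E → V) (vec : E → Fin n → ZMod 2) (X : Finset V),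
      RepresentsCographic src dst vec → Set.range vec = S → X.card ≤ 9 →
      (∀ e, src e ≠ dst e → src e ∈ X ∨ dst e ∈ X) →
      (IsTwoBlock S → ∃ (C : Set (Fin n → ZMod 2)) (t : Fin 15 → Fin n → ZMod 2),
        C ⊆ S ∧ Set.range t ⊆ S ∧ Function.Injective t ∧
        ∀ x : Fin 15 → ZMod 2, ∑ k, x k • t k ∈ Submodule.span (ZMod 2) C ↔ x ∈ petersenCuts) ∧
      (IsTangential S → ∃ ψ : (Fin 15 → ZMod 2) →ₗ[ZMod 2] (Fin n → ZMod 2),
        LinearMap.ker ψ = petersenCuts ∧
        ⇑ψ '' Set.range (fun k : Fin 15 => (Pi.single k (1 : ZMod 2) : Fin 15 → ZMod 2)) = S) := by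
  classical
  intro n S V E _ _ _ _ src dst vec X hv hr hX hc
  have hv' : TH676.Blk.RepCo src dst vec := hv
  have hPC : TH676.Blk.PC = petersenCuts := rfl
  have main : IsTwoBlock S → ∃ (C : Set (Fin n → ZMod 2)) (t : Fin 15 → Fin n → ZMod 2),
        C ⊆ S ∧ Set.range t ⊆ S ∧ Function.Injective t ∧
        ∀ x : Fin 15 → ZMod 2, ∑ k, x k • t k ∈ Submodule.span (ZMod 2) C ↔
          x ∈ TH676.Blk.PC := by
    rintro ⟨hz, hL⟩
    have h0 : ∀ e, vec e ≠ 0 := by
      intro e he
      apply hz
      rw [← hr, ← he]
      exact ⟨e, rfl⟩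
    have hnz : ¬ TH499.TF.NZ src dst := by
      intro h
      obtain ⟨L, hL'⟩ := hv'.map h
      apply hL
      refine ⟨L, fun s hs => ?_⟩
      rw [← hr] at hs
      obtain ⟨e, rfl⟩ := hs
      exact hL' e
    have hPM : TH499.TF.PM src dst := by
      by_contra hPM
      exact hnz (Q253.VC.cls9 ⟨X, hX, hc⟩ hPM (hv'.br h0))
    obtain ⟨D, ed, hx⟩ := hv'.minor hPM
    refine ⟨vec '' (D : Set E), fun k => vec (ed k), ?_, ?_, ?_, hx⟩
    · rintro _ ⟨e, _, rfl⟩
      rw [← hr]
      exact ⟨e, rfl⟩
    · rintro _ ⟨k, rfl⟩
      rw [← hr]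
      exact ⟨ed k, rfl⟩
    · intro k l hkl
      by_contra hne
      apply TH676.Blk.pair_not_mem k l hne
      rw [← hx]
      have : ∑ m, (Pi.single k 1 + Pi.single l 1 : Fin 15 → ZMod 2) m • vec (ed m) = 0 := by
        simp only [Pi.add_apply, add_smul]
        rw [Finset.sum_add_distrib]
        simp only [Pi.single_apply, ite_smul, one_smul, zero_smul, Finset.sum_ite_eq',
          Finset.mem_univ, if_true]
        have h3 : vec (ed k) = vec (ed l) := hkl
        rw [h3]
        funext i
        exact CharTwo.add_self_eq_zero _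
      rw [this]
      exact Submodule.zero_mem _
  refine ⟨main, ?_⟩
  rintro ⟨h2, htan⟩
  obtain ⟨C, t, hC, ht, hinj, hx⟩ := main h2
  -- a single element is not in the span of `C`
  have hsum1 : ∀ k, ∑ m, (Pi.single k 1 : Fin 15 → ZMod 2) m • t m = t k := by
    intro k
    simp only [Pi.single_apply, ite_smul, one_smul, zero_smul, Finset.sum_ite_eq',
      Finset.mem_univ, if_true]
  have hsp : ∀ k, t k ∉ Submodule.span (ZMod 2) C := by
    intro k hk
    apply TH676.Blk.single_not_mem k
    rw [← hx, hsum1]
    exact hk
  have hTS : Set.range t = S := by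
    by_contra hne
    obtain ⟨L, hL1, hL2⟩ := htan C (Set.range t) hC ht hne (by
      rintro _ ⟨k, rfl⟩
      exact hsp k)
    obtain ⟨k, hk⟩ := TH676.Blk.pet_flow (fun k => ((L (t k)) 0, (L (t k)) 1)) (by
      intro x hxP
      have h3 := (hx x).mpr hxP
      have h4 : L (∑ k, x k • t k) = 0 := by
        have hle : Submodule.span (ZMod 2) C ≤ LinearMap.ker L :=
          Submodule.span_le.mpr (fun c hc => hL1 c hc)
        exact hle h3
      rw [map_sum] at h4
      simp only [map_smul] at h4
      have h5 := congrFun h4 0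
      have h6 := congrFun h4 1
      rw [Finset.sum_apply] at h5 h6
      refine Prod.ext ?_ ?_
      · rw [Prod.fst_sum]
        exact h5
      · rw [Prod.snd_sum]
        exact h6)
    apply hL2 (t k) ⟨k, rfl⟩
    funext i
    fin_cases i
    · exact congrArg Prod.fst hk
    · exact congrArg Prod.snd hk
  have hC0 : C = ∅ := by
    rw [Set.eq_empty_iff_forall_notMem]
    intro c hc
    have h3 := hC hc
    rw [← hTS] at h3
    obtain ⟨k, rfl⟩ := h3
    exact hsp k (Submodule.subset_span hc)
  refine ⟨Fintype.linearCombination (ZMod 2) t, ?_, ?_⟩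
  · ext x
    rw [LinearMap.mem_ker, Fintype.linearCombination_apply, ← hPC, ← hx, hC0,
      Submodule.span_empty, Submodule.mem_bot]
  · ext s
    rw [← hTS]
    constructor
    · rintro ⟨_, ⟨k, rfl⟩, rfl⟩
      refine ⟨k, ?_⟩
      rw [Fintype.linearCombination_apply]
      exact (hsum1 k).symm
    · rintro ⟨k, rfl⟩
      refine ⟨_, ⟨k, rfl⟩, ?_⟩
      rw [Fintype.linearCombination_apply]
      exact hsum1 k

end Pool.Agent.Results.MP_aa6b05_co.VertexCoverNine
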